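import Pool.Agent.Helper68.UGU.Core
import Pool.Agent.Helper72.UGD.NoGap

/-!
# UGU-9a: no uniform bias along prime dilates, with a gap independent of the modulus

The proof of `UGD.nogap` with `core_of` in place of `UGD.core`.
-/

set_option autoImplicit false

namespace Pool.Agent.Helper68.UGU

open Finset MRP UGB UGC UGD

theorem nogap_of (d : ℕ)
    (hcore : ∃ (C : ℝ) (K : ℕ), 0 < C ∧ 1 ≤ K ∧ ∀ W q : ℕ, 0 < W → 0 < q → q ∣ W →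
      ∀ (h : Fin d → ℕ) (H : ℕ), (∀ i, h i < H) → ∀ S : ℕ,
      ∃ P₀ : ℕ, ∀ P : ℕ, P₀ ≤ P → ∃ E : ℝ, ∀ (M : ℕ) (g : ℕ → ZMod 2) (ρ : ℕ → ℕ) (τ : ℕ → ZMod 2) (δ : ℝ),
        (∀ r, ρ r < q) → 0 < δ →
          (∑ p ∈ dyP P, (((Icc 1 M).filter (fun n => n % q = ρ (p % W) ∧
            (∑ j, g (n + p * h j)) + g (n + p * H) ≠ τ (p % W))).card : ℝ)) ≤
              δ * (dyP P).card * ((M : ℝ) / q + 1) →
            ∃ κ < q, ∀ s : ℕ, 1 ≤ s → s ≤ S → (((Icc 1 M).filter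
              (fun n => n % q = κ ∧ g n ≠ g (n + W * (∏ i, (H - h i)) * K * s))).card : ℝ) ≤
              C * √δ * ((M : ℝ) / q + 1) + E) :
    ∃ δ₁ : ℝ, 0 < δ₁ ∧ ∀ q : ℕ, 0 < q →
    ∀ (h : Fin d → ℕ) (H : ℕ), (∀ i, h i < H) → ∃ P₀ : ℕ, ∀ P : ℕ, P₀ ≤ P → ∃ M₀ : ℕ, ∀ M : ℕ, M₀ ≤ M →
      ∀ (ρ : ℕ → ℕ) (τ : ℕ → ZMod 2), (∀ r, ρ r < q) →
        δ₁ * (dyP P).card * ((M : ℝ) / q) < ∑ p ∈ dyP P, (((Icc 1 M).filter (fun n => n % q = ρ (p % q) ∧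
          (∑ j, gg (n + p * h j)) + gg (n + p * H) ≠ τ (p % q))).card : ℝ) := by
  classical
  obtain ⟨C, K, hC, hK, hcore⟩ := hcore
  refine ⟨(1 / (8 * C)) ^ 2, by positivity, fun q hq h H hH => ?_⟩
  have hqR : (0 : ℝ) < q := by exact_mod_cast hq
  set hh : ℕ := q * (∏ i, (H - h i)) * K with hhh
  have hh1 : 1 ≤ hh := by
    have h1 : 0 < ∏ i, (H - h i) := Finset.prod_pos fun i _ => Nat.sub_pos_of_lt (hH i)
    exact Nat.mul_pos (Nat.mul_pos hq h1) hK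
  obtain ⟨S₀, hS₀, hmr⟩ := mr_shift hh hh1 (1 / (4 * q)) (by positivity)
  obtain ⟨M₁, hM₁⟩ := hmr S₀ le_rfl
  obtain ⟨P₀, hP₀⟩ := hcore q q hq hq dvd_rfl h H hH S₀
  refine ⟨P₀, fun P hP => ?_⟩
  obtain ⟨E, hE⟩ := hP₀ P hP
  obtain ⟨M₂, hM₂⟩ := exists_nat_gt (2 * q * (2 + 2 * (E + 1)))
  refine ⟨max M₁ M₂, fun M hM ρ τ hρ => ?_⟩
  by_contra hcon
  push Not at hcon
  have hcon' : ∑ p ∈ dyP P, (((Icc 1 M).filter (fun n => n % q = ρ (p % q) ∧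
          (∑ j, gg (n + p * h j)) + gg (n + p * H) ≠ τ (p % q))).card : ℝ) ≤
      (1 / (8 * C)) ^ 2 * (dyP P).card * ((M : ℝ) / q + 1) := by
    refine hcon.trans ?_
    have : 0 ≤ (1 / (8 * C)) ^ 2 * ((dyP P).card : ℝ) := by positivity
    nlinarith
  obtain ⟨κ, hκ, hs⟩ := hE M gg ρ τ _ hρ (by positivity) hcon'
  have hsq : √((1 / (8 * C)) ^ 2) = 1 / (8 * C) := Real.sqrt_sq (by positivity)
  rw [hsq] at hs
  have h1 := large_of_few hh q κ S₀ M hq hκ (C * (1 / (8 * C)) * ((M : ℝ) / q + 1) + E)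
    (fun s hs1 hs2 => hs s hs1 hs2)
  have h2 := hM₁ M (le_trans (le_max_left _ _) hM)
  have h3 := h1.trans h2
  have hS : (0 : ℝ) < S₀ := by exact_mod_cast hS₀
  have h4 : (M : ℝ) / q - 2 - 2 * (C * (1 / (8 * C)) * ((M : ℝ) / q + 1) + E) ≤ 1 / (4 * q) * M := by
    have h5 : (S₀ : ℝ) * ((M : ℝ) / q - 2 - 2 * (C * (1 / (8 * C)) * ((M : ℝ) / q + 1) + E)) ≤
        S₀ * (1 / (4 * q) * M) := by
      calc (S₀ : ℝ) * ((M : ℝ) / q - 2 - 2 * (C * (1 / (8 * C)) * ((M : ℝ) / q + 1) + E))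
          ≤ 1 / (4 * q) * S₀ * M := h3
        _ = S₀ * (1 / (4 * q) * M) := by ring
    exact le_of_mul_le_mul_left h5 hS
  have h6 : C * (1 / (8 * C)) * ((M : ℝ) / q + 1) = ((M : ℝ) / q + 1) / 8 := by
    field_simp
  rw [h6] at h4
  have h7 : (1 / (4 * q) * M : ℝ) = (M : ℝ) / q / 4 := by
    field_simp
  rw [h7] at h4
  have h8 : (2 * q * (2 + 2 * (E + 1)) : ℝ) < M := by
    refine hM₂.trans_le ?_
    exact_mod_cast le_trans (le_max_right _ _) hM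
  have h9 : 2 * (2 + 2 * (E + 1)) < (M : ℝ) / q := by
    rw [lt_div_iff₀ hqR]
    linarith
  linarith

end Pool.Agent.Helper68.UGU
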